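import Mathlib
import Pool.Agent.Lib_MP_7cc4cd_co.Defs
import Pool.Agent.Lib_MP_7cc4cd_co.Proof

set_option autoImplicit false

open Pool.Agent.LibMP7cc4cd

/-- For every `N ≥ 1` there is a connected graph with `6N + 5` vertices, exactly two of which lie
in no triangle, whose total domination number exceeds its matching number. -/
theorem Pool.Agent.Results.MP_7cc4cd_co.TwoOutside.result :
    ∀ N : ℕ, 1 ≤ N → ∃ (V : Type) (_ : Fintype V) (G : SimpleGraph V),
      Fintype.card V = 6 * N + 5 ∧ G.Connected ∧ InClass 2 G ∧
      {v : V | ¬ InTriangle G v}.ncard = 2 ∧ matchingNumber G < totalDominationNumber G := by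
  intro N hN
  refine ⟨VV N, inferInstance, GG N, ?_, connected N, inClass N, ?_, ?_⟩
  · simp only [Fintype.card_sum, Fintype.card_fin, Fintype.card_prod]
    ring
  · rw [notri]
    exact Set.ncard_pair (by simp)
  · have h1 := gammat_lower hN
    have h2 := alpha_upper N
    omega
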